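import Pool.Agent.H30.LT.Targets

/-!
# MP_70ba79_ag, board `al_modules`, row TRF: one more block of parameters
-/

set_option autoImplicit false

namespace Pool.Agent.H3.LT.TRF

open MvPolynomial SC Pool.Agent.H27.LV Pool.Agent.H30.AV Pool.Agent.H30.AW Pool.Agent.H30.AX
  Pool.Agent.H30.LT

attribute [local instance] MvPolynomial.algebraMvPolynomial

section

variable {R S₁ S₂ : Type} [CommRing R]

theorem sumE_monomial (d : S₁ ⊕ S₂ →₀ ℕ) (a : R) :
    sumAlgEquiv R S₁ S₂ (monomial d a) =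
      monomial (Finsupp.sumFinsuppAddEquivProdFinsupp d).1
        (monomial (Finsupp.sumFinsuppAddEquivProdFinsupp d).2 a) := by
  simp [sumAlgEquiv, monomial]

theorem coeff_sumE (G : MvPolynomial (S₁ ⊕ S₂) R) (m : S₁ →₀ ℕ)
    (m' : S₂ →₀ ℕ) : coeff m' (coeff m (sumAlgEquiv R S₁ S₂ G)) =
      coeff (Finsupp.sumFinsuppAddEquivProdFinsupp.symm (m, m')) G := by
  classical
  induction G using MvPolynomial.induction_on' with
  | monomial d a =>
    rw [sumE_monomial, coeff_monomial, coeff_monomial]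
    by_cases h1 : d = Finsupp.sumFinsuppAddEquivProdFinsupp.symm (m, m')
    · subst h1
      simp
    · rw [if_neg h1]
      split_ifs with h2
      · rw [coeff_monomial, if_neg]
        intro h3
        apply h1
        rw [AddEquiv.eq_symm_apply]
        exact Prod.ext h2 h3
      · exact coeff_zero _
  | add p q hp hq => rw [map_add, coeff_add, coeff_add, coeff_add, hp, hq]

end

/-- the last block of variables first -/
def eq (q n : ℕ) : Lw (q + 1) n ≃ Fin (n + 1) ⊕ Lw q n where
  toFun v := Fin.lastCases (motive := fun _ => Fin (n + 1) ⊕ Lw q n) (Sum.inl v.2)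
    (fun i => Sum.inr (i, v.2)) v.1
  invFun := Sum.elim (fun t => (Fin.last q, t)) (fun u => (u.1.castSucc, u.2))
  left_inv := by
    rintro ⟨i, t⟩
    refine Fin.lastCases ?_ (fun i => ?_) i
    · simp
    · simp
  right_inv := by
    rintro (t | ⟨i, t⟩)
    · simp
    · simp

theorem eq_last (q n : ℕ) (t : Fin (n + 1)) : eq q n (Fin.last q, t) = Sum.inl t := by
  simp [eq]

theorem eq_castSucc (q n : ℕ) (i : Fin q) (t : Fin (n + 1)) :
    eq q n (i.castSucc, t) = Sum.inr (i, t) := by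
  simp [eq]

/-- the last block of variables separated -/
noncomputable def Ph (R : Type) [CommRing R] (q n : ℕ) :
    MvPolynomial (Lw (q + 1) n) R ≃ₐ[R] MvPolynomial (Fin (n + 1)) (MvPolynomial (Lw q n) R) :=
  (renameEquiv R (eq q n)).trans (sumAlgEquiv R (Fin (n + 1)) (Lw q n))

section

variable {R : Type} [CommRing R] {q n : ℕ}

theorem Ph_C (a : R) : Ph R q n (C a) = C (C a) := by
  simp [Ph]

theorem Ph_last (t : Fin (n + 1)) : Ph R q n (X (Fin.last q, t)) = X t := by
  simp [Ph, eq_last]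

theorem Ph_cast (i : Fin q) (t : Fin (n + 1)) : Ph R q n (X (i.castSucc, t)) = C (X (i, t)) := by
  simp [Ph, eq_castSucc]

theorem Ph_coeff (V : Set R) (G : MvPolynomial (Lw (q + 1) n) R) :
    (∀ m m', coeff m' (coeff m (Ph R q n G)) ∈ V) ↔ ∀ d, coeff d G ∈ V := by
  have h1 : ∀ m m', coeff m' (coeff m (Ph R q n G)) =
      coeff (Finsupp.mapDomain (eq q n).symm
        (Finsupp.sumFinsuppAddEquivProdFinsupp.symm (m, m'))) G := by
    intro m m'
    have h2 := coeff_sumE (rename (eq q n) G) m m'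
    have h3 := coeff_rename_mapDomain (eq q n) (eq q n).injective G
      (Finsupp.mapDomain (eq q n).symm
        (Finsupp.sumFinsuppAddEquivProdFinsupp.symm (m, m')))
    rw [← Finsupp.mapDomain_comp] at h3
    simp only [Equiv.self_comp_symm, Finsupp.mapDomain_id] at h3
    rw [← h3]
    exact h2
  constructor
  · intro h d
    obtain ⟨d', hd'⟩ : ∃ d', Finsupp.mapDomain (eq q n).symm d' = d := by
      refine ⟨Finsupp.mapDomain (eq q n) d, ?_⟩
      rw [← Finsupp.mapDomain_comp]
      simp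
    have h4 := h (Finsupp.sumFinsuppAddEquivProdFinsupp d').1
      (Finsupp.sumFinsuppAddEquivProdFinsupp d').2
    rw [h1] at h4
    simp only [Prod.mk.eta, AddEquiv.symm_apply_apply, hd'] at h4
    exact h4
  · intro h m m'
    rw [h1]
    exact h _

theorem Ph_lf_last (W : Zw n → R) (s : Fin (n + 1)) :
    Ph R q n (lf W (q + 1) (Fin.last q) s) =
      Pool.Agent.H30.LT.lin fun t => C (W (s, t)) := by
  unfold lf Pool.Agent.H30.LT.lin
  rw [map_sum]
  refine Finset.sum_congr rfl fun t _ => ?_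
  rw [map_mul, Ph_C, Ph_last]

theorem Ph_lf_cast (W : Zw n → R) (i : Fin q) (s : Fin (n + 1)) :
    Ph R q n (lf W (q + 1) i.castSucc s) = C (lf W q i s) := by
  unfold lf
  rw [map_sum, map_sum]
  refine Finset.sum_congr rfl fun t _ => ?_
  rw [map_mul, Ph_C, Ph_cast, map_mul]

theorem Ph_mem (J : Ideal (MvPolynomial (Lw (q + 1) n) R)) (w : ℕ)
    (G : MvPolynomial (Lw (q + 1) n) R) :
    G ∈ J ^ w ↔ Ph R q n G ∈ (J.map (Ph R q n : MvPolynomial (Lw (q + 1) n) R →+*
      MvPolynomial (Fin (n + 1)) (MvPolynomial (Lw q n) R))) ^ w := by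
  rw [← Ideal.map_pow]
  have h1 := Ideal.mem_map_of_equiv (Ph R q n).toRingEquiv (I := J ^ w) (Ph R q n G)
  constructor
  · intro h
    exact Ideal.mem_map_of_mem _ h
  · intro h
    obtain ⟨x, hx, hx2⟩ := h1.1 h
    have h3 : x = G := (Ph R q n).injective hx2
    rw [← h3]
    exact hx

theorem map_nI_cast (W : Zw n → R) (i : Fin q) :
    (nI W (q + 1) i.castSucc).map (Ph R q n : MvPolynomial (Lw (q + 1) n) R →+*
      MvPolynomial (Fin (n + 1)) (MvPolynomial (Lw q n) R)) =
      (nI W q i).map (C : MvPolynomial (Lw q n) R →+*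
        MvPolynomial (Fin (n + 1)) (MvPolynomial (Lw q n) R)) := by
  unfold nI
  rw [Ideal.map_span, Ideal.map_span, ← Set.range_comp, ← Set.range_comp]
  congr 2
  funext s
  exact Ph_lf_cast W i s

end

section

variable {k F : Type} [Field k] [Field F] [Algebra k F] {q n : ℕ}

theorem Ph_alg (r : MvPolynomial (Lw (q + 1) n) k) :
    Ph F q n (map (algebraMap k F) r) = map (map (algebraMap k F)) (Ph k q n r) := by
  induction r using MvPolynomial.induction_on with
  | C a => rw [map_C, Ph_C, Ph_C, map_C, map_C]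
  | add p q hp hq => rw [map_add, map_add, map_add, map_add, hp, hq]
  | mul_X p v hp =>
    rw [map_mul, map_mul, map_mul, map_mul, hp, map_X]
    congr 1
    obtain ⟨i, t⟩ := v
    refine Fin.lastCases ?_ (fun i => ?_) i
    · rw [Ph_last, Ph_last, map_X]
    · rw [Ph_cast, Ph_cast, map_C, map_X]

theorem key (hPLK : T_PLK) {W : Zw n → F} {p p' : Fin (n + 1)} (hW : Rk2 W)
    (hpp : W (p, p') ≠ 0) (w M : ℕ) (G : MvPolynomial (Lw (q + 1) n) F) :
    G ∈ VM k W w (q + 1) M ↔ Ph F q n G ∈ cof (Fin (n + 1)) (VM k W w q M) ⊓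
      (Ideal.span {Pool.Agent.H30.LT.lin fun t => C (W (p', t)),
        Pool.Agent.H30.LT.lin fun t => C (W (p, t))} ^ w :
        Ideal (MvPolynomial (Fin (n + 1)) (MvPolynomial (Lw q n) F))).restrictScalars
        (MvPolynomial (Fin (n + 1)) (MvPolynomial (Lw q n) k)) := by
  have hlast : (nI W (q + 1) (Fin.last q)).map (Ph F q n : MvPolynomial (Lw (q + 1) n) F →+*
      MvPolynomial (Fin (n + 1)) (MvPolynomial (Lw q n) F)) =
      Ideal.span {Pool.Agent.H30.LT.lin fun t => C (W (p', t)),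
        Pool.Agent.H30.LT.lin fun t => C (W (p, t))} := by
    rw [(hPLK F n W p p' hW hpp).2, Ideal.map_span, Set.image_pair]
    congr 2
    · exact Ph_lf_last W p'
    · rw [Set.singleton_eq_singleton_iff]
      exact Ph_lf_last W p
  have h1 : G ∈ VM k W w (q + 1) M ↔ (∀ d, coeff d G ∈ Uf k W M) ∧
      ∀ i, G ∈ nI W (q + 1) i ^ w := by
    unfold VM
    rw [Submodule.mem_inf, Submodule.restrictScalars_mem, Submodule.mem_iInf]
    exact Iff.rfl
  have h2 : ∀ H : MvPolynomial (Lw q n) F, H ∈ VM k W w q M ↔ (∀ d, coeff d H ∈ Uf k W M) ∧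
      ∀ i, H ∈ nI W q i ^ w := by
    intro H
    unfold VM
    rw [Submodule.mem_inf, Submodule.restrictScalars_mem, Submodule.mem_iInf]
    exact Iff.rfl
  have h3 : Ph F q n G ∈ cof (Fin (n + 1)) (VM k W w q M) ↔
      ∀ m, coeff m (Ph F q n G) ∈ VM k W w q M := Iff.rfl
  rw [Submodule.mem_inf, Submodule.restrictScalars_mem, h3, h1, ← hlast, ← Ph_mem]
  simp only [h2, forall_and]
  have h4 : (∀ m d, coeff d (coeff m (Ph F q n G)) ∈ Uf k W M) ↔ ∀ d, coeff d G ∈ Uf k W M :=
    Ph_coeff (Uf k W M : Set F) G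
  have h5 : ∀ i : Fin q, (∀ m, coeff m (Ph F q n G) ∈ nI W q i ^ w) ↔
      G ∈ nI W (q + 1) i.castSucc ^ w := by
    intro i
    rw [Ph_mem, map_nI_cast, ← Ideal.map_pow, MvPolynomial.mem_map_C_iff]
  rw [h4]
  constructor
  · rintro ⟨a, b⟩
    exact ⟨⟨a, fun m i => (h5 i).2 (b _) m⟩, b _⟩
  · rintro ⟨⟨a, b⟩, c⟩
    refine ⟨a, fun i => ?_⟩
    refine Fin.lastCases c (fun i => ?_) i
    exact (h5 i).1 fun m => b m i

end

/-- TRF: one more block of parameters -/
theorem pf_TRF (hPLK : T_PLK) : T_TRF := by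
  intro k F _ _ _ n W p p' hW hpp w q M
  unfold hq rkI
  have hk := key (k := k) (q := q) hPLK hW hpp w M
  let j : ↥(VM k W w (q + 1) M) ≃+ ↥(cof (Fin (n + 1)) (VM k W w q M) ⊓
      (Ideal.span {Pool.Agent.H30.LT.lin fun t => C (W (p', t)),
        Pool.Agent.H30.LT.lin fun t => C (W (p, t))} ^ w :
        Ideal (MvPolynomial (Fin (n + 1)) (MvPolynomial (Lw q n) F))).restrictScalars
        (MvPolynomial (Fin (n + 1)) (MvPolynomial (Lw q n) k))) :=
    { toFun := fun x => ⟨Ph F q n x.1, (hk _).1 x.2⟩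
      invFun := fun y => ⟨(Ph F q n).symm y.1, (hk _).2 (by
        rw [AlgEquiv.apply_symm_apply]
        exact y.2)⟩
      left_inv := fun x => Subtype.ext ((Ph F q n).symm_apply_apply x.1)
      right_inv := fun y => Subtype.ext ((Ph F q n).apply_symm_apply y.1)
      map_add' := fun x y => Subtype.ext (map_add (Ph F q n) x.1 y.1) }
  refine congrArg Cardinal.toNat (rank_eq_of_equiv_equiv (Ph k q n) j (Ph k q n).bijective ?_)
  intro r x
  refine Subtype.ext ?_
  change Ph F q n (r • x.1) = Ph k q n r • Ph F q n x.1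
  rw [Algebra.smul_def, Algebra.smul_def, map_mul]
  congr 1
  exact Ph_alg r

end Pool.Agent.H3.LT.TRF
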